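import Pool.Agent.H7.IG.Fin

/-!
# `IGMP(ω₂, ω₁)`, Martin's axiom and a large continuum

Let `M` be a countable transitive model of ZFC and let `κ` be supercompact in `M` (in Magidor's form). For
every ordinal `μ` of `M` there is a countable transitive model `N ⊇ M` of ZFC in which `κ` is `ω₂`,
`MA_{ω₁}` holds, the continuum is larger than `ω₂` and larger than `μ`, and `IGMP(ω₂, ω₁)` holds: for all
sufficiently large regular `θ` the indestructibly `ω₁`-guessing elementary substructures of `H_θ` of size
`ω₁` are stationary in `P_{ω₂}(H_θ)`.

So `ZFC + IGMP(ω₂, ω₁) + MA_{ω₁} + 2^ω > ω₂` is consistent relative to a supercompact cardinal: a positive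
answer to the question of Cox and Krueger.

Outline: force over `M` with finite chains of models of two types as side conditions (this makes `κ` equal to
`ω₂`), then with a finite support iteration of ccc posets. Let `e : V_α → V_η` be an embedding as in `Sc`
with critical point `γ`, `γ` a node of the first generic filter. It lifts to the extensions; the domain is an
element of an intermediate model `W`, and the remaining forcing over `W` is the product of a strongly proper
poset with a ccc iteration. Over a model `W` in which all trees of size `ω₁` without uncountable branches are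
special, the iteration (strongly proper) * (ccc) has the `ω₁`-approximation property. So the range of the lifted
embedding is guessing; indestructibility follows from `MA_{ω₁}` by Baumgartner's specialization.
-/

namespace Pool.Agent.Results.MP_109426_lc.IGMPMALarge

open Pool.Agent.H17.Omega Pool.Agent.H7.IG

theorem result (M : Set ZFSet.{0}) (hM : CTM M) (κ : Ordinal.{0}) (hκ : Sc M κ) (μ : Ordinal.{0})
    (hμ : μ.toZFSet ∈ M) :
    ∃ N : Set ZFSet.{0}, M ⊆ N ∧ CTM N ∧ ∃ δ : Ordinal.{0}, IsOm2 N δ κ ∧ MA1 N δ ∧ BigC N κ ∧ BigC N μ ∧
      IGMP N δ κ :=
  igmp_ma_large hM hκ hμ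

end Pool.Agent.Results.MP_109426_lc.IGMPMALarge
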